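import Pool.Agent.X201.ZwrZ3

/-!
# A congruence box space of `ℤ ≀ ℤ` without property `D_α` for any `α`

This answers Q2 of MP_625351_al in the affirmative: the congruence box space defined by the
ideals `I_k = ker (ℤ[X, X⁻¹] → (ℤ/m)[X]/(X^m - 1))`, `m = 2^(k+1)`, fails property `D_α` for every
`α ∈ (0, 1]` (and every finite generating set).
-/

namespace Pool.Agent.Results.MP_625351_al.NoPropertyD

open LaurentPolynomial Matrix Pool.Agent.X201.ZwrZ

/-- The ideals `I_k`. -/
noncomputable def I (k : ℕ) : Ideal A := RingHom.ker (red (2 ^ (k + 1)))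

instance (m : ℕ) [NeZero m] : Finite (AddMonoidAlgebra (ZMod m) (ZMod m)) := by
  have h : Function.Injective (fun f : AddMonoidAlgebra (ZMod m) (ZMod m) =>
      (fun x => f.coeff x : ZMod m → ZMod m)) := by
    intro f g hfg
    ext x
    exact congrFun hfg x
  exact Finite.of_injective _ h

theorem card_groupRing (m : ℕ) [NeZero m] :
    Nat.card (AddMonoidAlgebra (ZMod m) (ZMod m)) = m ^ m := by
  have e : AddMonoidAlgebra (ZMod m) (ZMod m) ≃ (ZMod m → ZMod m) :=
    { toFun := fun f x => f.coeff x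
      invFun := fun g => AddMonoidAlgebra.ofCoeff (Finsupp.equivFunOnFinite.symm g)
      left_inv := by
        intro f
        ext x
        simp
      right_inv := by
        intro g
        ext x
        simp }
  rw [Nat.card_congr e]
  simp

theorem card_quot (k : ℕ) : Nat.card (A ⧸ I k) = (2 ^ (k + 1)) ^ (2 ^ (k + 1)) := by
  rw [← card_groupRing (2 ^ (k + 1))]
  exact Nat.card_congr
    (RingHom.quotientKerEquivOfSurjective (red_surjective (2 ^ (k + 1)))).toEquiv

theorem ne_top (k : ℕ) : I k ≠ ⊤ := by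
  intro h
  have h1 := card_quot k
  have h2 : Subsingleton (A ⧸ I k) := Ideal.Quotient.subsingleton_iff.2 h
  have h3 : Nat.card (A ⧸ I k) ≤ 1 := Finite.card_le_one_iff_subsingleton.2 h2
  have h4 : 1 < (2 ^ (k + 1)) ^ (2 ^ (k + 1)) :=
    Nat.one_lt_pow (by positivity) (Nat.one_lt_two_pow (by omega))
  omega

theorem finite_quot (k : ℕ) : Finite (A ⧸ I k) := by
  have := card_quot k
  apply Nat.finite_of_card_ne_zero
  rw [this]
  positivity

theorem isCongruenceFiltration : IsCongruenceFiltration I := by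
  refine isCongruenceFiltration_of ?_ finite_quot ?_
  · intro j k hjk f hf
    rw [I, RingHom.mem_ker] at hf ⊢
    exact red_factor (pow_dvd_pow 2 (Nat.add_le_add_right hjk 1)) f hf
  · intro f hf
    by_contra hne
    obtain ⟨M, hM⟩ := red_ne_zero f hne
    have h1 : M ≤ 2 ^ (M + 1) := (Nat.le_succ M).trans (Nat.lt_two_pow_self).le
    exact hM _ h1 (RingHom.mem_ker.1 (hf M))

/-- The diameter of the `k`-th quotient is at most `3 L m²`, with `m = 2 ^ (k + 1)`. -/
theorem diam_bound {S : Set G} {L : ℕ} (ht : InBall S L (mkG 1 0)) (ha : InBall S L (mkG 0 1))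
    (k : ℕ) :
    diam ((QuotientGroup.mk : G → G ⧸ congruenceSubgroup (I k)) '' S) ≤
      3 * L * (2 ^ (k + 1)) ^ 2 := by
  apply diam_le
  intro q
  obtain ⟨g, rfl⟩ := QuotientGroup.mk_surjective q
  obtain ⟨n, P, rfl⟩ := exists_mkG g
  set m : ℕ := 2 ^ (k + 1) with hm
  have hm0 : 0 < m := by positivity
  let c : ℕ → ℕ := fun j => ((red m P).coeff (j : ZMod m)).val
  have hc : ∀ j, c j ≤ m := fun j => (ZMod.val_lt _).le
  let P' : A := ∑ j ∈ Finset.range m, (c j : A) * T j
  have hP' : red m P' = red m P := by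
    have h1 : red m P' = ∑ j ∈ Finset.range m,
        AddMonoidAlgebra.single (j : ZMod m) ((red m P).coeff (j : ZMod m)) := by
      simp only [P', map_sum]
      apply Finset.sum_congr rfl
      intro j _
      have h2 : ((c j : ℕ) : A) * T (j : ℤ) = AddMonoidAlgebra.single (j : ℤ) ((c j : ℕ) : ℤ) := by
        rw [single_eq_C_mul_T]
        simp
      rw [h2, red_single]
      simp [c]
    rw [h1]
    ext x
    rw [AddMonoidAlgebra.coeff_sum, Finsupp.finsetSum_apply]
    rw [Finset.sum_eq_single (ZMod.val x)]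
    · simp
    · intro b hb hbx
      rw [AddMonoidAlgebra.coeff_single, Finsupp.single_apply, if_neg]
      rintro rfl
      apply hbx
      rw [ZMod.val_natCast_of_lt (Finset.mem_range.1 hb)]
    · intro h
      exact absurd (Finset.mem_range.2 (ZMod.val_lt x)) h
  let n' : ℕ := (n % (m : ℤ)).toNat
  have hn' : (n' : ℤ) = n % (m : ℤ) := by
    have := Int.emod_nonneg n (b := (m : ℤ)) (by positivity)
    exact Int.toNat_of_nonneg this
  have hn'm : n' ≤ m := by
    have := Int.emod_lt_of_pos n (b := (m : ℤ)) (by positivity)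
    omega
  have hmk : ((mkG n P : G) : G ⧸ congruenceSubgroup (I k)) =
      ((mkG m P' * (mkG 1 0) ^ n' : G) : G ⧸ congruenceSubgroup (I k)) := by
    rw [← mkG_natCast_zero, mkG_mul, mk_eq_mk]
    constructor
    · rw [I, RingHom.mem_ker, map_sub, red_T, red_T, sub_eq_zero]
      congr 1
      rw [← hm]
      push_cast
      have h3 : ((n' : ℤ) : ZMod m) = ((n % (m : ℤ) : ℤ) : ZMod m) := by rw [hn']
      rw [Int.cast_natCast] at h3
      rw [h3, ZMod.intCast_mod, ZMod.natCast_self, zero_add]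
    · rw [I, RingHom.mem_ker, map_sub, ← hm, mul_zero, add_zero, hP', sub_self]
  rw [hmk]
  have h1 : InBall S (m * (m * L + L) + n' * L) (mkG m P' * (mkG 1 0) ^ n') :=
    (inBall_sum ht ha m c hc m).mul (ht.pow n')
  have h2 : m * (m * L + L) + n' * L ≤ 3 * L * m ^ 2 := by
    have h4 : m ≤ m ^ 2 := by nlinarith
    have h5 : n' * L ≤ m * L := Nat.mul_le_mul_right _ hn'm
    calc m * (m * L + L) + n' * L ≤ m * (m * L + L) + m * L := by omega
      _ = m ^ 2 * L + 2 * (m * L) := by ring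
      _ ≤ m ^ 2 * L + 2 * (m ^ 2 * L) := by
          have := Nat.mul_le_mul_right L h4
          omega
      _ = 3 * L * m ^ 2 := by ring
  exact (h1.mono h2).map (QuotientGroup.mk' (congruenceSubgroup (I k)))

/-- There is a congruence box space of `G = ℤ ≀ ℤ`, given by proper ideals of `A`, that fails
property `D_α` for every `α ∈ (0, 1]`, whichever finite generating set of `G` is used. -/
theorem result : ∃ I : ℕ → Ideal A, IsCongruenceFiltration I ∧ (∀ k, I k ≠ ⊤) ∧
    ∀ S : Set G, S.Finite → Subgroup.closure S = ⊤ →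
      ∀ α : ℝ, 0 < α → α ≤ 1 → ¬ HasPropertyD S I α := by
  refine ⟨I, isCongruenceFiltration, ne_top, ?_⟩
  intro S _ hS α hα _ hD
  obtain ⟨K, hK, hD⟩ := hD
  obtain ⟨L, ht, ha⟩ := exists_L hS
  obtain ⟨k, hk⟩ := exists_nat_gt (max (3 / α) (3 * L / K))
  have hkm : (k : ℝ) < ((2 ^ (k + 1) : ℕ) : ℝ) := by
    exact_mod_cast (Nat.lt_succ_self k).trans Nat.lt_two_pow_self
  have h1 : 3 / α < ((2 ^ (k + 1) : ℕ) : ℝ) := ((le_max_left _ _).trans_lt hk).trans hkm
  have h2 : 3 * L / K < ((2 ^ (k + 1) : ℕ) : ℝ) := ((le_max_right _ _).trans_lt hk).trans hkm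
  have h3 := hD k
  have h4 : (diam ((QuotientGroup.mk : G → G ⧸ congruenceSubgroup (I k)) '' S) : ℝ) ≤
      3 * L * ((2 ^ (k + 1) : ℕ) : ℝ) ^ 2 := by exact_mod_cast diam_bound ht ha k
  have h5 : (((2 ^ (k + 1)) ^ (2 ^ (k + 1)) : ℕ) : ℝ) ≤
      (Nat.card (G ⧸ congruenceSubgroup (I k)) : ℝ) := by
    rw [← card_quot k]
    exact_mod_cast card_le (finite_quot k)
  generalize (2 ^ (k + 1) : ℕ) = m at h1 h2 h4 h5
  have hm1 : (1 : ℝ) ≤ m := by
    have : (0 : ℝ) < m := lt_trans (by positivity) h1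
    have : 0 < m := by exact_mod_cast this
    exact_mod_cast this
  have h6 : (m : ℝ) ^ 3 ≤ (Nat.card (G ⧸ congruenceSubgroup (I k)) : ℝ) ^ α := by
    calc (m : ℝ) ^ 3 = (m : ℝ) ^ (3 : ℝ) := by norm_cast
      _ ≤ (m : ℝ) ^ ((m : ℝ) * α) := by
          apply Real.rpow_le_rpow_of_exponent_le hm1
          rw [div_lt_iff₀ hα] at h1
          exact h1.le
      _ = (((m ^ m : ℕ) : ℝ)) ^ α := by
          rw [Real.rpow_mul (by positivity)]
          push_cast
          rw [Real.rpow_natCast]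
      _ ≤ _ := Real.rpow_le_rpow (by positivity) h5 hα.le
  have h7 : K * (m : ℝ) ^ 3 ≤ 3 * L * (m : ℝ) ^ 2 :=
    (mul_le_mul_of_nonneg_left h6 hK.le).trans (h3.trans h4)
  rw [div_lt_iff₀ hK] at h2
  have h8 : 3 * L * (m : ℝ) ^ 2 < K * (m : ℝ) ^ 3 := by
    have h9 : (0 : ℝ) < (m : ℝ) ^ 2 := by positivity
    nlinarith
  linarith

end Pool.Agent.Results.MP_625351_al.NoPropertyD
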