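import Pool.Agent.X201.ZwrZ3

/-!
# A congruence box space of `ℤ ≀ ℤ` with property `D_α`

This answers Q1 of MP_625351_al in the affirmative: some congruence box space of `ℤ ≀ ℤ` has
property `D_{1/8}`.
-/

namespace Pool.Agent.Results.MP_625351_al.PropertyD

open LaurentPolynomial Matrix Pool.Agent.X201.ZwrZ

/-! ## The primes -/

/-- The number of elements of `(ℤ/2^i)[ℤ/2^i]`. -/
def M (i : ℕ) : ℕ := (2 ^ i) ^ (2 ^ i)

theorem exists_prime (i P : ℕ) (hP : 0 < P) :
    ∃ p : ℕ, p.Prime ∧ 7 ≤ p ∧ M i ≤ p ∧ P ∣ p + 1 := by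
  have : NeZero P := ⟨hP.ne'⟩
  obtain ⟨p, hgt, hp, hmod⟩ := Nat.forall_exists_prime_gt_and_eq_mod
    (q := P) (a := (-1 : ZMod P)) isUnit_one.neg (7 + M i)
  refine ⟨p, hp, by omega, by omega, ?_⟩
  rw [← ZMod.natCast_eq_zero_iff]
  push_cast
  rw [hmod]
  simp

/-- The products `∏_{j < i} (p_j - 1)`. -/
noncomputable def P : ℕ → {P : ℕ // 0 < P}
  | 0 => ⟨1, one_pos⟩
  | i + 1 => ⟨(P i).1 * ((exists_prime i (P i).1 (P i).2).choose - 1), by
      have h := (exists_prime i (P i).1 (P i).2).choose_spec.2.1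
      exact Nat.mul_pos (P i).2 (by omega)⟩

/-- The primes `p_i`. -/
noncomputable def p (i : ℕ) : ℕ := (exists_prime i (P i).1 (P i).2).choose

theorem p_prime (i : ℕ) : (p i).Prime := (exists_prime i (P i).1 (P i).2).choose_spec.1

theorem seven_le_p (i : ℕ) : 7 ≤ p i := (exists_prime i (P i).1 (P i).2).choose_spec.2.1

theorem M_le_p (i : ℕ) : M i ≤ p i := (exists_prime i (P i).1 (P i).2).choose_spec.2.2.1

theorem P_dvd (i : ℕ) : (P i).1 ∣ p i + 1 :=
  (exists_prime i (P i).1 (P i).2).choose_spec.2.2.2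

theorem P_succ (i : ℕ) : (P (i + 1)).1 = (P i).1 * (p i - 1) := rfl

instance (i : ℕ) : Fact (p i).Prime := ⟨p_prime i⟩

/-- The least common multiple of the `p_i - 1`, `i < k`. -/
noncomputable def L : ℕ → ℕ
  | 0 => 1
  | k + 1 => Nat.lcm (L k) (p k - 1)

theorem L_dvd_P (k : ℕ) : L k ∣ (P k).1 := by
  induction k with
  | zero => exact one_dvd _
  | succ k ih =>
    rw [P_succ]
    exact Nat.lcm_dvd (ih.mul_right _) (dvd_mul_left _ _)

theorem L_pos (k : ℕ) : 0 < L k := Nat.pos_of_dvd_of_pos (L_dvd_P k) (P k).2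

theorem gcd_le_two (k : ℕ) : Nat.gcd (L k) (p k - 1) ≤ 2 := by
  have h1 : Nat.gcd (L k) (p k - 1) ∣ p k + 1 :=
    (Nat.gcd_dvd_left _ _).trans ((L_dvd_P k).trans (P_dvd k))
  have h2 : Nat.gcd (L k) (p k - 1) ∣ p k - 1 := Nat.gcd_dvd_right _ _
  have h3 := Nat.dvd_sub h1 h2
  have h4 : p k + 1 - (p k - 1) = 2 := by
    have := seven_le_p k
    omega
  rw [h4] at h3
  exact Nat.le_of_dvd two_pos h3

theorem L_succ_ge (k : ℕ) : L k * (p k - 1) ≤ 2 * L (k + 1) := by
  rw [← Nat.gcd_mul_lcm]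
  exact Nat.mul_le_mul_right _ (gcd_le_two k)

/-- The product of the first `k` primes `p_i`. -/
noncomputable def E (k : ℕ) : ℕ := ∏ i ∈ Finset.range k, p i

theorem E_le (k : ℕ) : E k ≤ L k ^ 2 := by
  induction k with
  | zero => simp [E, L]
  | succ k ih =>
    have h1 := L_succ_ge k
    have h2 : (L k * (p k - 1)) ^ 2 ≤ (2 * L (k + 1)) ^ 2 := Nat.pow_le_pow_left h1 2
    have h3 : 4 * p k ≤ (p k - 1) ^ 2 := by
      have h7 := seven_le_p k
      obtain ⟨q, hq⟩ : ∃ q, p k = q + 7 := ⟨p k - 7, by omega⟩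
      rw [hq]
      have : q + 7 - 1 = q + 6 := by omega
      rw [this]
      nlinarith
    have h4 : 4 * E (k + 1) ≤ 4 * L (k + 1) ^ 2 := by
      calc 4 * E (k + 1) = E k * (4 * p k) := by
            have h5 : E (k + 1) = E k * p k := Finset.prod_range_succ _ _
            rw [h5]; ring
        _ ≤ L k ^ 2 * (p k - 1) ^ 2 := Nat.mul_le_mul ih h3
        _ = (L k * (p k - 1)) ^ 2 := by ring
        _ ≤ (2 * L (k + 1)) ^ 2 := h2
        _ = 4 * L (k + 1) ^ 2 := by ring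
    omega

/-! ## The ideals -/

theorem exists_gen (i : ℕ) : ∃ g : (ZMod (p i))ˣ, orderOf g = p i - 1 := by
  obtain ⟨g, hg⟩ := IsCyclic.exists_generator (α := (ZMod (p i))ˣ)
  refine ⟨g, ?_⟩
  rw [orderOf_eq_card_of_forall_mem_zpowers hg, Nat.card_eq_fintype_card, ZMod.card_units]

/-- A primitive root modulo `p_i`. -/
noncomputable def gen (i : ℕ) : (ZMod (p i))ˣ := (exists_gen i).choose

theorem orderOf_gen (i : ℕ) : orderOf (gen i) = p i - 1 := (exists_gen i).choose_spec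

/-- Evaluation at the primitive root. -/
noncomputable def ev (i : ℕ) : A →+* ZMod (p i) :=
  LaurentPolynomial.eval₂ (Int.castRingHom (ZMod (p i))) (gen i)

theorem ev_T (i : ℕ) (n : ℤ) : ev i (T n) = ((gen i ^ n : (ZMod (p i))ˣ) : ZMod (p i)) := by
  rw [ev, LaurentPolynomial.eval₂_T]

/-- The target of the `k`-th reduction. -/
abbrev R (k : ℕ) : Type :=
  (i : Fin k) → ZMod (p i) × AddMonoidAlgebra (ZMod (2 ^ (i : ℕ))) (ZMod (2 ^ (i : ℕ)))

/-- The `k`-th reduction. -/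
noncomputable def Phi (k : ℕ) : A →+* R k :=
  RingHom.pi fun i : Fin k => (ev i).prod (red (2 ^ (i : ℕ)))

instance instFin (m : ℕ) [NeZero m] : Finite (AddMonoidAlgebra (ZMod m) (ZMod m)) := by
  have h : Function.Injective (fun f : AddMonoidAlgebra (ZMod m) (ZMod m) =>
      (fun x => f.coeff x : ZMod m → ZMod m)) := by
    intro f g hfg
    ext x
    exact congrFun hfg x
  exact Finite.of_injective _ h

theorem card_groupRing (m : ℕ) [NeZero m] :
    Nat.card (AddMonoidAlgebra (ZMod m) (ZMod m)) = m ^ m := by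
  have e : AddMonoidAlgebra (ZMod m) (ZMod m) ≃ (ZMod m → ZMod m) :=
    { toFun := fun f x => f.coeff x
      invFun := fun g => AddMonoidAlgebra.ofCoeff (Finsupp.equivFunOnFinite.symm g)
      left_inv := by
        intro f
        ext x
        simp
      right_inv := by
        intro g
        ext x
        simp }
  rw [Nat.card_congr e]
  simp

theorem card_R (k : ℕ) : Nat.card (R k) ≤ E k ^ 2 := by
  rw [Nat.card_pi, Fin.prod_univ_eq_prod_range
    (fun i => Nat.card (ZMod (p i) × AddMonoidAlgebra (ZMod (2 ^ i)) (ZMod (2 ^ i)))) k,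
    E, ← Finset.prod_pow]
  apply Finset.prod_le_prod'
  intro i _
  rw [Nat.card_prod, card_groupRing, Nat.card_zmod, pow_two]
  exact Nat.mul_le_mul_left _ (M_le_p i)

/-- The ideals `I_k`. -/
noncomputable def I (k : ℕ) : Ideal A := RingHom.ker (Phi (k + 1))

theorem mem_I {k : ℕ} {f : A} : f ∈ I k ↔ ∀ i < k + 1, ev i f = 0 ∧ red (2 ^ i) f = 0 := by
  rw [I, RingHom.mem_ker]
  constructor
  · intro h i hi
    have := congrFun h ⟨i, hi⟩
    exact Prod.ext_iff.1 this
  · intro h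
    funext i
    exact Prod.ext (h i i.2).1 (h i i.2).2

theorem finite_quot (k : ℕ) : Finite (A ⧸ I k) :=
  Finite.of_injective _ (RingHom.kerLift_injective (Phi (k + 1)))

theorem card_quot (k : ℕ) : Nat.card (A ⧸ I k) ≤ E (k + 1) ^ 2 :=
  (Nat.card_le_card_of_injective _ (RingHom.kerLift_injective (Phi (k + 1)))).trans
    (card_R (k + 1))

theorem isCongruenceFiltration : IsCongruenceFiltration I := by
  refine isCongruenceFiltration_of ?_ finite_quot ?_
  · intro j k hjk f hf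
    rw [mem_I] at hf ⊢
    exact fun i hi => hf i (by omega)
  · intro f hf
    by_contra hne
    obtain ⟨M, hM⟩ := red_ne_zero f hne
    have h1 : M ≤ 2 ^ M := (Nat.lt_two_pow_self).le
    exact hM _ h1 ((mem_I.1 (hf M)) M (by omega)).2

theorem L_dvd {k : ℕ} {n : ℤ} (h : (T n - 1 : A) ∈ I k) : (L (k + 1) : ℤ) ∣ n := by
  rw [mem_I] at h
  have key : ∀ j ≤ k + 1, (L j : ℤ) ∣ n := by
    intro j
    induction j with
    | zero => intro _; simp [L]
    | succ j ih =>
      intro hj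
      have h1 := ih (by omega)
      have h2 := (h j (by omega)).1
      rw [map_sub, map_one, ev_T, sub_eq_zero] at h2
      have h3 : gen j ^ n = 1 := Units.ext h2
      rw [← orderOf_dvd_iff_zpow_eq_one, orderOf_gen] at h3
      rw [L]
      rw [Int.natCast_dvd] at h1 h3 ⊢
      exact Nat.lcm_dvd h1 h3
  exact key (k + 1) le_rfl

theorem card_G_le (k : ℕ) :
    Nat.card (G ⧸ congruenceSubgroup (I k)) ≤ Nat.card (A ⧸ I k) ^ 2 := by
  have := finite_quot k
  have := finite_quotient (finite_quot k)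
  rw [pow_two, ← Nat.card_prod]
  let f : G ⧸ congruenceSubgroup (I k) → (A ⧸ I k) × (A ⧸ I k) := fun q =>
    (Ideal.Quotient.mk _ ((((q.out : G) : GL (Fin 2) A) : Matrix (Fin 2) (Fin 2) A) 0 0),
      Ideal.Quotient.mk _ ((((q.out : G) : GL (Fin 2) A) : Matrix (Fin 2) (Fin 2) A) 0 1))
  refine Nat.card_le_card_of_injective f ?_
  intro q r hqr
  obtain ⟨n, P, hq⟩ := exists_mkG q.out
  obtain ⟨m, R, hr⟩ := exists_mkG r.out
  simp only [f] at hqr
  rw [hq, hr] at hqr
  simp only [mkG_coe, Matrix.of_apply, Matrix.cons_val', Matrix.cons_val_zero,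
    Matrix.cons_val_one, Prod.mk.injEq, Ideal.Quotient.eq] at hqr
  have h1 : ((mkG n P : G) : G ⧸ congruenceSubgroup (I k)) = ((mkG m R : G) : _) :=
    mk_eq_mk.2 hqr
  rw [← hq, ← hr] at h1
  rwa [QuotientGroup.out_eq', QuotientGroup.out_eq'] at h1

/-! ## The lower bound for the diameter -/

theorem exists_bound {S : Set G} (hS : S.Finite) :
    ∃ B : ℕ, 1 ≤ B ∧ ∀ n P, mkG n P ∈ S → |n| ≤ B := by
  choose e he using fun g : G => exists_mkG g
  obtain ⟨B, hB⟩ := (hS.image (fun g => |e g|)).bddAbove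
  refine ⟨B.toNat + 1, by omega, fun n P hn => ?_⟩
  have h1 : |e (mkG n P)| ≤ B := hB ⟨_, hn, rfl⟩
  obtain ⟨P', hP'⟩ := he (mkG n P)
  rw [← (mkG_inj hP').1] at h1
  push_cast
  have := Int.self_le_toNat B
  omega

theorem prod_exponent {S : Set G} {B : ℕ} (hB : ∀ n P, mkG n P ∈ S → |n| ≤ B) (k : ℕ)
    (l : List (G ⧸ congruenceSubgroup (I k)))
    (hl : ∀ s ∈ l, s ∈ (QuotientGroup.mk : G → G ⧸ congruenceSubgroup (I k)) '' S ∨
      s⁻¹ ∈ (QuotientGroup.mk : G → G ⧸ congruenceSubgroup (I k)) '' S) :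
    ∃ (n : ℤ) (P : A), |n| ≤ l.length * B ∧ l.prod = ((mkG n P : G) : G ⧸ _) := by
  induction l with
  | nil => exact ⟨0, 0, by simp, by rw [mkG_zero]; rfl⟩
  | cons s l ih =>
    obtain ⟨n, P, hn, hP⟩ := ih fun t ht => hl t (List.mem_cons_of_mem _ ht)
    obtain ⟨m, R, hm, hR⟩ : ∃ (m : ℤ) (R : A), |m| ≤ B ∧
        s = ((mkG m R : G) : G ⧸ congruenceSubgroup (I k)) := by
      rcases hl s List.mem_cons_self with ⟨g, hg, hgs⟩ | ⟨g, hg, hgs⟩
      · obtain ⟨m, R, rfl⟩ := exists_mkG g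
        exact ⟨m, R, hB m R hg, hgs.symm⟩
      · obtain ⟨m, R, rfl⟩ := exists_mkG g
        refine ⟨-m, -(T (-m) * R), by rw [abs_neg]; exact hB m R hg, ?_⟩
        rw [← mkG_inv, QuotientGroup.mk_inv, hgs, inv_inv]
    refine ⟨m + n, R + T m * P, ?_, ?_⟩
    · have := abs_add_le m n
      rw [List.length_cons]
      push_cast
      nlinarith
    · rw [List.prod_cons, hP, hR, ← mkG_mul]
      rfl

theorem diam_lower {S : Set G} (hgen : Subgroup.closure S = ⊤) {B : ℕ}
    (hB : ∀ n P, mkG n P ∈ S → |n| ≤ B) (k : ℕ) :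
    L (k + 1) / 2 ≤ B * diam ((QuotientGroup.mk : G → G ⧸ congruenceSubgroup (I k)) '' S) := by
  have := finite_quotient (finite_quot k)
  set S' := (QuotientGroup.mk : G → G ⧸ congruenceSubgroup (I k)) '' S with hS'
  have hgen' : Subgroup.closure S' = ⊤ := by
    have h1 : S' = (QuotientGroup.mk' (congruenceSubgroup (I k))) '' S := rfl
    rw [h1, ← MonoidHom.map_closure, hgen, ← MonoidHom.range_eq_map]
    exact MonoidHom.range_eq_top.2 (QuotientGroup.mk'_surjective _)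
  obtain ⟨l, hl1, hl2, hl3⟩ := wordLength_spec hgen'
    ((mkG ((L (k + 1) / 2 : ℕ) : ℤ) 0 : G) : G ⧸ congruenceSubgroup (I k))
  obtain ⟨n, P, hn, hP⟩ := prod_exponent hB k l hl2
  rw [hP, mk_eq_mk] at hl3
  have h1 : (T (n - ((L (k + 1) / 2 : ℕ) : ℤ)) - 1 : A) ∈ I k := by
    have h2 := (I k).mul_mem_left (T (-((L (k + 1) / 2 : ℕ) : ℤ))) hl3.1
    have h3 : (T (-((L (k + 1) / 2 : ℕ) : ℤ)) * (T n - T ((L (k + 1) / 2 : ℕ) : ℤ)) : A) =
        T (n - ((L (k + 1) / 2 : ℕ) : ℤ)) - 1 := by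
      rw [mul_sub, ← T_add, ← T_add, neg_add_cancel, T_zero, sub_eq_add_neg n, add_comm n]
    rwa [h3] at h2
  have h2 := L_dvd h1
  have h3 : ((L (k + 1) / 2 : ℕ) : ℤ) ≤ |n| := by
    by_contra hlt
    push Not at hlt
    have h4 : n - ((L (k + 1) / 2 : ℕ) : ℤ) = 0 := by
      apply Int.eq_zero_of_abs_lt_dvd h2
      rw [abs_lt] at hlt ⊢
      omega
    have h5 : |n| = ((L (k + 1) / 2 : ℕ) : ℤ) := by
      rw [sub_eq_zero.1 h4, abs_of_nonneg (Int.natCast_nonneg _)]
    omega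
  have h4 : l.length ≤ diam S' := hl1 ▸ wordLength_le_diam S' _
  have h5 : ((L (k + 1) / 2 : ℕ) : ℤ) ≤ (B * diam S' : ℕ) := by
    refine h3.trans (hn.trans ?_)
    have : l.length * B ≤ B * diam S' := by
      rw [mul_comm]
      exact Nat.mul_le_mul_left _ h4
    exact_mod_cast this
  exact_mod_cast h5

/-- There is a congruence box space of `G = ℤ ≀ ℤ` that has property `D_{1/8}`, whichever finite
generating set of `G` is used. -/
theorem result : ∃ I : ℕ → Ideal A, IsCongruenceFiltration I ∧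
    ∀ S : Set G, S.Finite → Subgroup.closure S = ⊤ → HasPropertyD S I (1 / 8) := by
  refine ⟨I, isCongruenceFiltration, ?_⟩
  intro S hfin hgen
  obtain ⟨B, hB1, hB⟩ := exists_bound hfin
  refine ⟨1 / (3 * B), by positivity, fun k => ?_⟩
  have h1 := diam_lower hgen hB k
  have h2 : L (k + 1) ≤ 3 * (L (k + 1) / 2) := by
    have h3 : 2 ≤ L (k + 1) := by
      have h4 := E_le (k + 1)
      have h5 : 7 ≤ E (k + 1) := by
        have h6 : p 0 ∣ E (k + 1) :=
          Finset.dvd_prod_of_mem p (Finset.mem_range.2 (Nat.succ_pos k))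
        have h7 : 0 < E (k + 1) :=
          Finset.prod_pos fun i _ => (p_prime i).pos
        exact (seven_le_p 0).trans (Nat.le_of_dvd h7 h6)
      by_contra hlt
      have : L (k + 1) ≤ 1 := by omega
      have : L (k + 1) ^ 2 ≤ 1 := by nlinarith
      omega
    omega
  have h3 : (Nat.card (G ⧸ congruenceSubgroup (I k)) : ℝ) ^ ((1 : ℝ) / 8) ≤ L (k + 1) := by
    have h4 : Nat.card (G ⧸ congruenceSubgroup (I k)) ≤ L (k + 1) ^ 8 := by
      calc Nat.card (G ⧸ congruenceSubgroup (I k)) ≤ Nat.card (A ⧸ I k) ^ 2 := card_G_le k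
        _ ≤ (E (k + 1) ^ 2) ^ 2 := Nat.pow_le_pow_left (card_quot k) 2
        _ ≤ (((L (k + 1)) ^ 2) ^ 2) ^ 2 :=
            Nat.pow_le_pow_left (Nat.pow_le_pow_left (E_le (k + 1)) 2) 2
        _ = L (k + 1) ^ 8 := by ring
    calc (Nat.card (G ⧸ congruenceSubgroup (I k)) : ℝ) ^ ((1 : ℝ) / 8)
        ≤ ((L (k + 1) : ℝ) ^ 8) ^ ((1 : ℝ) / 8) := by
          apply Real.rpow_le_rpow (by positivity) _ (by positivity)
          exact_mod_cast h4
      _ = L (k + 1) := by
          rw [← Real.rpow_natCast, ← Real.rpow_mul (by positivity)]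
          norm_num
  set D := diam ((QuotientGroup.mk : G → G ⧸ congruenceSubgroup (I k)) '' S)
  have h5 : (L (k + 1) : ℝ) ≤ 3 * B * D := by
    have : L (k + 1) ≤ 3 * (B * D) := h2.trans (Nat.mul_le_mul_left 3 h1)
    have h6 : ((L (k + 1) : ℕ) : ℝ) ≤ ((3 * (B * D) : ℕ) : ℝ) := by exact_mod_cast this
    push_cast at h6
    linarith
  have hB0 : (0 : ℝ) < 3 * B := by
    have : (1 : ℝ) ≤ B := by exact_mod_cast hB1
    linarith
  rw [div_mul_eq_mul_div, one_mul, div_le_iff₀ hB0]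
  calc _ ≤ (L (k + 1) : ℝ) := h3
    _ ≤ 3 * B * D := h5
    _ = D * (3 * B) := by ring

end Pool.Agent.Results.MP_625351_al.PropertyD
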